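import Mathlib

set_option autoImplicit false

namespace Pool.Agent.Results.MP_55095a_co.NotHPositive

open MvPolynomial

/-- The ring `R = ℂ[x_{ij} : 1 ≤ i ≤ ℓ, 1 ≤ j ≤ n]`. -/
abbrev Poly (ℓ n : ℕ) : Type := MvPolynomial (Fin ℓ × Fin n) ℂ

/-- The space `R_d` of polynomials all of whose monomials have multidegree
`d = (∑_j a_{1j}, …, ∑_j a_{ℓj})` (the variable `x_{ij}` has weight `e_i`). -/
noncomputable def multiHomog (ℓ n : ℕ) (d : Fin ℓ →₀ ℕ) : Submodule ℂ (Poly ℓ n) :=
  weightedHomogeneousSubmodule ℂ (fun p : Fin ℓ × Fin n => Finsupp.single p.1 1) d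

/-- The diagonal action `σ · x_{ij} = x_{i σ(j)}`. -/
noncomputable def permAct {ℓ n : ℕ} (σ : Equiv.Perm (Fin n)) (f : Poly ℓ n) : Poly ℓ n :=
  rename (fun p : Fin ℓ × Fin n => (p.1, σ p.2)) f

/-- The generalized polarization operator `E^{(p)}_{i,k} = ∑_j x_{ij} ∂_{kj}^p`. -/
noncomputable def polarization {ℓ n : ℕ} (p : ℕ) (i k : Fin ℓ) (g : Poly ℓ n) : Poly ℓ n :=
  ∑ j : Fin n, X (i, j) * (pderiv (k, j))^[p] g

/-- The polarization module `M_f`: the smallest subspace that contains the `S_n`-orbit of `f`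
and is closed under all `∂_{ij}` and all `E^{(p)}_{i,k}` with `p ≥ 1`. -/
noncomputable def polarizationModule {ℓ n : ℕ} (f : Poly ℓ n) : Submodule ℂ (Poly ℓ n) :=
  sInf {M : Submodule ℂ (Poly ℓ n) |
    (∀ σ : Equiv.Perm (Fin n), permAct σ f ∈ M) ∧
    (∀ (i : Fin ℓ) (j : Fin n), ∀ g ∈ M, pderiv (i, j) g ∈ M) ∧
    (∀ p : ℕ, 1 ≤ p → ∀ i k : Fin ℓ, ∀ g ∈ M, polarization p i k g ∈ M)}

/-- The Hilbert series of `M_f`, as a formal power series in `q_1, …, q_ℓ`: the coefficient of
`q^d` is the dimension of `M_f ∩ R_d`. -/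
noncomputable def hilbertSeries {ℓ n : ℕ} (f : Poly ℓ n) : MvPowerSeries (Fin ℓ) ℤ :=
  fun d => (Module.finrank ℂ ↥(polarizationModule f ⊓ multiHomog ℓ n d) : ℤ)

/-- `h`-positivity: `M_f(q) = ∑_{|μ| ≤ deg f} a_μ h_μ(q)` with nonnegative integers `a_μ`. -/
def IsHPositive {ℓ n : ℕ} (f : Poly ℓ n) : Prop :=
  ∃ a : (e : ℕ) → Nat.Partition e → ℕ,
    hilbertSeries f =
      ((∑ e ∈ Finset.range (f.totalDegree + 1), ∑ μ : Nat.Partition e,
        (a e μ) • hsymmPart (Fin ℓ) ℤ μ : MvPolynomial (Fin ℓ) ℤ) : MvPowerSeries (Fin ℓ) ℤ)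

/-! ### Linear versions of the operators -/

noncomputable def polLin {ℓ n : ℕ} (p : ℕ) (i k : Fin ℓ) : Poly ℓ n →ₗ[ℂ] Poly ℓ n :=
  ∑ j : Fin n, (LinearMap.mulLeft ℂ (X (i, j))) ∘ₗ
    (((pderiv (k, j) : Derivation ℂ (Poly ℓ n) (Poly ℓ n)) : Poly ℓ n →ₗ[ℂ] Poly ℓ n) ^ p)

lemma iter_eq {ℓ n : ℕ} (p : ℕ) (v : Fin ℓ × Fin n) (g : Poly ℓ n) :
    (((pderiv v : Derivation ℂ (Poly ℓ n) (Poly ℓ n)) : Poly ℓ n →ₗ[ℂ] Poly ℓ n) ^ p) g =
      (pderiv v)^[p] g := by
  rw [Module.End.pow_apply]
  rfl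

lemma polLin_apply {ℓ n : ℕ} (p : ℕ) (i k : Fin ℓ) (g : Poly ℓ n) :
    polLin p i k g = polarization p i k g := by
  unfold polLin polarization
  rw [LinearMap.sum_apply]
  refine Finset.sum_congr rfl (fun j _ => ?_)
  rw [LinearMap.comp_apply, LinearMap.mulLeft_apply, iter_eq]

/-! ### The Segre map -/

/-- `x_{ij} ↦ v_i w_j`. -/
noncomputable def segre (ℓ n : ℕ) : Poly ℓ n →ₐ[ℂ] MvPolynomial (Fin ℓ ⊕ Fin n) ℂ :=
  aeval (fun p : Fin ℓ × Fin n => X (Sum.inl p.1) * X (Sum.inr p.2))

lemma pol_one {ℓ n : ℕ} (i k : Fin ℓ) (g : Poly ℓ n) :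
    polarization 1 i k g = ∑ j : Fin n, X (i, j) * pderiv (k, j) g := by
  unfold polarization
  simp

lemma segre_pol {ℓ n : ℕ} (i k : Fin ℓ) (g : Poly ℓ n) :
    segre ℓ n (polarization 1 i k g) = X (Sum.inl i) * pderiv (Sum.inl k) (segre ℓ n g) := by
  rw [pol_one]
  induction g using MvPolynomial.induction_on with
  | C a => simp [segre, algHom_C, algebraMap_eq]
  | add p q hp hq =>
    simp only [map_add, mul_add, Finset.sum_add_distrib]
    rw [hp, hq]
  | mul_X p v hp =>
    have h1 : ∑ j : Fin n, X (i, j) * pderiv (k, j) (p * X v) =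
        (∑ j : Fin n, X (i, j) * pderiv (k, j) p) * X v +
          p * (if v.1 = k then X (i, v.2) else 0) := by
      simp only [pderiv_mul, mul_add, Finset.sum_add_distrib]
      congr 1
      · rw [Finset.sum_mul]
        refine Finset.sum_congr rfl (fun j _ => by ring)
      · by_cases hv : v.1 = k
        · rw [if_pos hv, Finset.sum_eq_single v.2]
          · have : (k, v.2) = v := by rw [← hv]
            rw [this, pderiv_X_self]; ring
          · intro j _ hj
            rw [pderiv_X_of_ne]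
            · ring
            · intro h; apply hj; rw [h]
          · intro h; exact absurd (Finset.mem_univ _) h
        · rw [if_neg hv]
          refine (Finset.sum_eq_zero (fun j _ => ?_)).trans (by ring)
          rw [pderiv_X_of_ne]
          · ring
          · intro h; apply hv; rw [h]
    rw [h1, map_add, map_mul, hp, map_mul, map_mul, pderiv_mul]
    have h2 : segre ℓ n (X v) = X (Sum.inl v.1) * X (Sum.inr v.2) := by
      unfold segre; rw [aeval_X]
    rw [h2, pderiv_mul]
    have h3 : pderiv (Sum.inl k) (X (Sum.inr v.2) : MvPolynomial (Fin ℓ ⊕ Fin n) ℂ) = 0 :=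
      pderiv_X_of_ne (by simp)
    rw [h3]
    by_cases hv : v.1 = k
    · rw [if_pos hv, hv, pderiv_X_self]
      have h4 : segre ℓ n (X (i, v.2)) = X (Sum.inl i) * X (Sum.inr v.2) := by
        unfold segre; rw [aeval_X]
      rw [h4]; ring
    · rw [if_neg hv, pderiv_X_of_ne (by simpa using hv), map_zero]
      ring

/-! ### A large submodule that contains `M_f` -/

lemma iter_hom {ℓ n : ℕ} (p : ℕ) (v : Fin ℓ × Fin n) (m : ℕ) (g : Poly ℓ n)
    (hg : g.IsHomogeneous m) : ((pderiv v)^[p] g).IsHomogeneous (m - p) := by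
  induction p with
  | zero => simpa using hg
  | succ p ih =>
    rw [Function.iterate_succ_apply']
    have := ih.pderiv (i := v)
    rwa [Nat.sub_sub] at this

lemma pol_hom {ℓ n : ℕ} (p : ℕ) (i k : Fin ℓ) (m : ℕ) (g : Poly ℓ n)
    (hg : g.IsHomogeneous m) : (polarization p i k g).IsHomogeneous (1 + (m - p)) := by
  unfold polarization
  refine IsHomogeneous.sum _ _ _ (fun j _ => ?_)
  exact (isHomogeneous_X ℂ (i, j)).mul (iter_hom p (k, j) m g hg)

/-- Polynomials of degree at most `2`, plus cubic forms in the kernel of the Segre map. -/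
noncomputable def big (ℓ n : ℕ) : Submodule ℂ (Poly ℓ n) :=
  homogeneousSubmodule _ ℂ 0 ⊔ homogeneousSubmodule _ ℂ 1 ⊔ homogeneousSubmodule _ ℂ 2 ⊔
    (homogeneousSubmodule _ ℂ 3 ⊓ LinearMap.ker (segre ℓ n).toLinearMap)

lemma hom_le_big {ℓ n m : ℕ} (hm : m ≤ 2) (g : Poly ℓ n) (hg : g.IsHomogeneous m) :
    g ∈ big ℓ n := by
  unfold big
  have hg' : g ∈ homogeneousSubmodule (Fin ℓ × Fin n) ℂ m := hg
  interval_cases m
  · exact Submodule.mem_sup_left (Submodule.mem_sup_left (Submodule.mem_sup_left hg'))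
  · exact Submodule.mem_sup_left (Submodule.mem_sup_left (Submodule.mem_sup_right hg'))
  · exact Submodule.mem_sup_left (Submodule.mem_sup_right hg')

lemma big_closed_pderiv {ℓ n : ℕ} (v : Fin ℓ × Fin n) (g : Poly ℓ n) (hg : g ∈ big ℓ n) :
    pderiv v g ∈ big ℓ n := by
  have key : big ℓ n ≤ (big ℓ n).comap
      ((pderiv v : Derivation ℂ (Poly ℓ n) (Poly ℓ n)) : Poly ℓ n →ₗ[ℂ] Poly ℓ n) := by
    have hom : ∀ m ≤ 3, ∀ g : Poly ℓ n, g.IsHomogeneous m → pderiv v g ∈ big ℓ n := by
      intro m hm g hg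
      exact hom_le_big (m := m - 1) (by omega) _ hg.pderiv
    refine sup_le (sup_le (sup_le ?_ ?_) ?_) ?_
    · exact fun g hg => hom 0 (by omega) g hg
    · exact fun g hg => hom 1 (by omega) g hg
    · exact fun g hg => hom 2 (by omega) g hg
    · exact fun g hg => hom 3 (by omega) g hg.1
  exact key hg

lemma big_closed_pol {ℓ n : ℕ} (p : ℕ) (hp : 1 ≤ p) (i k : Fin ℓ) (g : Poly ℓ n)
    (hg : g ∈ big ℓ n) : polarization p i k g ∈ big ℓ n := by
  have key : big ℓ n ≤ (big ℓ n).comap (polLin p i k) := by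
    have hom : ∀ m ≤ 2, ∀ g : Poly ℓ n, g.IsHomogeneous m → polLin p i k g ∈ big ℓ n := by
      intro m hm g hg
      rw [polLin_apply]
      exact hom_le_big (m := 1 + (m - p)) (by omega) _ (pol_hom p i k m g hg)
    refine sup_le (sup_le (sup_le ?_ ?_) ?_) ?_
    · exact fun g hg => hom 0 (by omega) g hg
    · exact fun g hg => hom 1 (by omega) g hg
    · exact fun g hg => hom 2 (by omega) g hg
    · rintro g ⟨hg1, hg2⟩
      rw [Submodule.mem_comap, polLin_apply]
      by_cases hp1 : p = 1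
      · subst hp1
        refine Submodule.mem_sup_right ⟨?_, ?_⟩
        · exact pol_hom 1 i k 3 g hg1
        · have hg2' : segre ℓ n g = 0 := hg2
          show segre ℓ n (polarization 1 i k g) = 0
          rw [segre_pol, hg2', map_zero, mul_zero]
      · exact hom_le_big (m := 1 + (3 - p)) (by omega) _ (pol_hom p i k 3 g hg1)
  have := key hg
  rwa [Submodule.mem_comap, polLin_apply] at this

/-- Restriction to the variables of one row. -/
noncomputable def backMap (ℓ n : ℕ) (r : Fin ℓ) :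
    MvPolynomial (Fin ℓ ⊕ Fin n) ℂ →ₐ[ℂ] Poly ℓ n :=
  aeval (Sum.elim (fun i => if i = r then 1 else 0) (fun j => X (r, j)))

lemma backMap_segre {ℓ n : ℕ} (r : Fin ℓ) (g : Poly ℓ n) (c : ℕ)
    (hg : g ∈ multiHomog ℓ n (Finsupp.single r c)) : backMap ℓ n r (segre ℓ n g) = g := by
  have hvars : ∀ p ∈ g.vars, p.1 = r := by
    intro p hp
    obtain ⟨m, hm, hpm⟩ := (mem_vars_iff_mem_support p).mp hp
    have hw : Finsupp.weight (fun p : Fin ℓ × Fin n => Finsupp.single p.1 1) m =
        Finsupp.single r c := hg (mem_support_iff.mp hm)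
    by_contra hne
    have h2 := DFunLike.congr_fun hw p.1
    rw [Finsupp.single_eq_of_ne hne, Finsupp.weight_apply, Finsupp.sum,
      Finsupp.finsetSum_apply, Finset.sum_eq_zero_iff] at h2
    have h3 := h2 p hpm
    simp at h3
    exact (Finsupp.mem_support_iff.mp hpm) h3
  have hcomp : (backMap ℓ n r).comp (segre ℓ n) =
      aeval (fun p : Fin ℓ × Fin n => if p.1 = r then (X (r, p.2) : Poly ℓ n) else 0) := by
    refine algHom_ext (fun p => ?_)
    unfold segre backMap
    rw [AlgHom.comp_apply, aeval_X, map_mul, aeval_X, aeval_X, aeval_X]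
    simp only [Sum.elim_inl, Sum.elim_inr]
    by_cases hp : p.1 = r
    · rw [if_pos hp, if_pos hp, one_mul]
    · rw [if_neg hp, if_neg hp, zero_mul]
  have h1 : backMap ℓ n r (segre ℓ n g) = ((backMap ℓ n r).comp (segre ℓ n)) g := rfl
  rw [h1, hcomp]
  have h2 : aeval (fun p : Fin ℓ × Fin n => if p.1 = r then (X (r, p.2) : Poly ℓ n) else 0) g =
      aeval (X : Fin ℓ × Fin n → Poly ℓ n) g := by
    refine eval₂Hom_congr' rfl (fun p hp _ => ?_) rfl
    rw [if_pos (hvars p hp), ← hvars p hp]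
  rw [h2, aeval_X_left_apply]

lemma isHomogeneous_of_multi {ℓ n : ℕ} (d : Fin ℓ →₀ ℕ) (g : Poly ℓ n)
    (hg : g ∈ multiHomog ℓ n d) : g.IsHomogeneous d.degree := by
  intro m hm
  have hw : Finsupp.weight (fun p : Fin ℓ × Fin n => Finsupp.single p.1 1) m = d := hg hm
  rw [← hw, Finsupp.weight_apply, Finsupp.weight_apply, Finsupp.sum, Finsupp.sum, map_sum]
  refine Finset.sum_congr rfl (fun p _ => ?_)
  simp

lemma big_inf {ℓ n : ℕ} (r : Fin ℓ) :
    big ℓ n ⊓ multiHomog ℓ n (Finsupp.single r 3) = ⊥ := by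
  rw [eq_bot_iff]
  rintro g ⟨hg1, hg2⟩
  have hhom : g.IsHomogeneous 3 := by
    have := isHomogeneous_of_multi _ g hg2
    simpa using this
  obtain ⟨a, ha, b, hb, hab⟩ := Submodule.mem_sup.mp hg1
  obtain ⟨a', ha', a2, ha2, hab'⟩ := Submodule.mem_sup.mp ha
  obtain ⟨a0, ha0, a1, ha1, hab''⟩ := Submodule.mem_sup.mp ha'
  have h0 : homogeneousComponent 3 a0 = 0 := by
    rw [homogeneousComponent_of_mem ha0]; simp
  have h1 : homogeneousComponent 3 a1 = 0 := by
    rw [homogeneousComponent_of_mem ha1]; simp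
  have h2 : homogeneousComponent 3 a2 = 0 := by
    rw [homogeneousComponent_of_mem ha2]; simp
  have h3 : homogeneousComponent 3 b = b := by
    rw [homogeneousComponent_of_mem hb.1]; simp
  have h4 : homogeneousComponent 3 g = g := by
    rw [homogeneousComponent_of_mem (m := 3) hhom]; simp
  have hgb : g = b := by
    rw [← h4, ← hab, ← hab', ← hab'', map_add, map_add, map_add, h0, h1, h2, h3]
    simp
  have hker : segre ℓ n g = 0 := by
    rw [hgb]; exact hb.2
  have := backMap_segre r g 3 hg2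
  rw [hker, map_zero] at this
  exact this.symm

/-! ### The witness -/

/-- `∑_{i,j} (x_{r i} x_{s j} - x_{r j} x_{s i}) (x_{r i} - x_{r j})` for two rows `r`, `s`. -/
noncomputable def wit {ℓ : ℕ} (n : ℕ) (r s : Fin ℓ) : Poly ℓ n :=
  ∑ i : Fin n, ∑ j : Fin n,
    (X (r, i) * X (s, j) - X (r, j) * X (s, i)) * (X (r, i) - X (r, j))

lemma wit_symm {ℓ n : ℕ} (r s : Fin ℓ) (σ : Equiv.Perm (Fin n)) :
    permAct σ (wit n r s) = wit n r s := by
  unfold permAct wit
  simp only [map_sum, map_mul, map_sub, rename_X]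
  rw [Equiv.sum_comp σ (fun i => ∑ j : Fin n,
    (X (r, i) * X (s, σ j) - X (r, σ j) * X (s, i)) * (X (r, i) - X (r, σ j)))]
  refine Finset.sum_congr rfl (fun i _ => ?_)
  rw [Equiv.sum_comp σ (fun j =>
    (X (r, i) * X (s, j) - X (r, j) * X (s, i)) * (X (r, i) - X (r, j)))]

/-- The multidegree of the witness. -/
noncomputable def witDeg {ℓ : ℕ} (r s : Fin ℓ) : Fin ℓ →₀ ℕ :=
  Finsupp.single r 1 + Finsupp.single s 1 + Finsupp.single r 1

lemma wit_multi {ℓ n : ℕ} (r s : Fin ℓ) : wit n r s ∈ multiHomog ℓ n (witDeg r s) := by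
  unfold wit
  refine Submodule.sum_mem _ (fun i _ => Submodule.sum_mem _ (fun j _ => ?_))
  have hX : ∀ (a : Fin ℓ) (b : Fin n), IsWeightedHomogeneous
      (fun p : Fin ℓ × Fin n => (Finsupp.single p.1 1 : Fin ℓ →₀ ℕ))
      (X (a, b) : Poly ℓ n) (Finsupp.single a 1) :=
    fun a b => isWeightedHomogeneous_X ℂ _ (a, b)
  have h1 : (X (r, i) * X (s, j) - X (r, j) * X (s, i) : Poly ℓ n) ∈
      weightedHomogeneousSubmodule ℂ (fun p : Fin ℓ × Fin n => Finsupp.single p.1 1)
        (Finsupp.single r 1 + Finsupp.single s 1) :=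
    Submodule.sub_mem _ ((hX r i).mul (hX s j)) ((hX r j).mul (hX s i))
  have h2 : (X (r, i) - X (r, j) : Poly ℓ n) ∈
      weightedHomogeneousSubmodule ℂ (fun p : Fin ℓ × Fin n => Finsupp.single p.1 1)
        (Finsupp.single r 1) :=
    Submodule.sub_mem _ (hX r i) (hX r j)
  exact IsWeightedHomogeneous.mul h1 h2

lemma wit_segre {ℓ n : ℕ} (r s : Fin ℓ) : segre ℓ n (wit n r s) = 0 := by
  unfold wit segre
  simp only [map_sum, map_mul, map_sub, aeval_X]
  refine Finset.sum_eq_zero (fun i _ => Finset.sum_eq_zero (fun j _ => ?_))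
  ring

lemma wit_ne {ℓ n : ℕ} (r s : Fin ℓ) (hrs : r ≠ s) (c c' : Fin n) (hcc : c ≠ c') :
    wit n r s ≠ 0 := by
  intro h
  let pt : Fin ℓ × Fin n → ℂ := fun p => if p = (r, c) then 1 else if p = (s, c') then 1 else 0
  have hr : ∀ i, pt (r, i) = if i = c then 1 else 0 := by
    intro i
    simp only [pt, Prod.mk.injEq, true_and]
    by_cases hi : i = c
    · rw [if_pos hi, if_pos hi]
    · rw [if_neg hi, if_neg hi, if_neg]
      rintro ⟨h1, _⟩; exact hrs h1
  have hs : ∀ i, pt (s, i) = if i = c' then 1 else 0 := by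
    intro i
    simp only [pt, Prod.mk.injEq, true_and]
    rw [if_neg]
    rintro ⟨h1, _⟩; exact hrs h1.symm
  have h1 : eval pt (wit n r s) = 2 := by
    unfold wit
    simp only [map_sum, map_mul, map_sub, eval_X, hr, hs]
    have h2 : ∀ i j : Fin n,
        (((if i = c then 1 else 0) * (if j = c' then 1 else 0) -
          (if j = c then 1 else 0) * (if i = c' then 1 else 0)) *
          ((if i = c then 1 else 0) - (if j = c then 1 else 0)) : ℂ) =
        (if i = c then 1 else 0) * (if j = c' then 1 else 0) +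
          (if j = c then 1 else 0) * (if i = c' then 1 else 0) := by
      intro i j
      by_cases hi : i = c
      · have hi' : ¬ i = c' := fun h' => hcc (hi ▸ h')
        by_cases hj : j = c
        · have hj' : ¬ j = c' := fun h' => hcc (hj ▸ h')
          simp [hi', hj']
        · simp [hi, hj, hcc]
      · by_cases hj : j = c
        · simp [hi, hj, hcc]
        · simp [hi, hj]
    simp only [h2, Finset.sum_add_distrib, ← Finset.mul_sum, ← Finset.sum_mul]
    simp
    norm_num
  rw [h, map_zero] at h1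
  norm_num at h1

lemma wit_mem_big {ℓ n : ℕ} (r s : Fin ℓ) : wit n r s ∈ big ℓ n := by
  refine Submodule.mem_sup_right ⟨?_, wit_segre r s⟩
  have := isHomogeneous_of_multi _ _ (wit_multi (n := n) r s)
  have hdeg : (witDeg r s).degree = 3 := by
    unfold witDeg
    rw [map_add, map_add, Finsupp.degree_single, Finsupp.degree_single]
  rw [hdeg] at this
  exact this

lemma module_le_big {ℓ n : ℕ} (r s : Fin ℓ) :
    polarizationModule (wit n r s) ≤ big ℓ n := by
  refine sInf_le ⟨fun σ => ?_, fun i j g hg => big_closed_pderiv (i, j) g hg,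
    fun p hp i k g hg => big_closed_pol p hp i k g hg⟩
  rw [wit_symm]
  exact wit_mem_big r s

lemma wit_mem_module {ℓ n : ℕ} (r s : Fin ℓ) :
    wit n r s ∈ polarizationModule (wit n r s) := by
  refine Submodule.mem_sInf.mpr (fun M hM => ?_)
  have := hM.1 1
  rwa [wit_symm] at this

/-! ### Coefficients of `h_μ` -/

/-- `q_i ↦ X`, all the other variables to `0`. -/
noncomputable def spec {ℓ : ℕ} (i : Fin ℓ) : MvPolynomial (Fin ℓ) ℤ →ₐ[ℤ] Polynomial ℤ :=
  aeval (fun j => if j = i then Polynomial.X else 0)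

lemma spec_coeff {ℓ : ℕ} (i : Fin ℓ) (P : MvPolynomial (Fin ℓ) ℤ) (m : ℕ) :
    (spec i P).coeff m = coeff (Finsupp.single i m) P := by
  induction P using MvPolynomial.induction_on' with
  | add p q hp hq => rw [map_add, Polynomial.coeff_add, hp, hq, coeff_add]
  | monomial d c =>
    unfold spec
    rw [aeval_monomial]
    by_cases hd : ∀ j, j ≠ i → d j = 0
    · have hdi : d = Finsupp.single i (d i) := by
        ext j
        by_cases hj : j = i
        · subst hj; simp
        · rw [hd j hj, Finsupp.single_eq_of_ne hj]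
      rw [hdi, Finsupp.prod_single_index (by simp), if_pos rfl]
      rw [coeff_monomial]
      simp only [eq_intCast, Polynomial.coeff_intCast_mul, Polynomial.coeff_X_pow]
      by_cases hm : m = d i
      · subst hm; simp
      · rw [if_neg hm, if_neg]
        · simp
        · intro h
          apply hm
          have := DFunLike.congr_fun h i
          simpa using this.symm
    · push Not at hd
      obtain ⟨j, hji, hdj⟩ := hd
      have h0 : (d.prod fun k e => (if k = i then (Polynomial.X : Polynomial ℤ) else 0) ^ e) = 0 := by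
        unfold Finsupp.prod
        refine Finset.prod_eq_zero (Finsupp.mem_support_iff.mpr hdj) ?_
        show (if j = i then (Polynomial.X : Polynomial ℤ) else 0) ^ (d j) = 0
        rw [if_neg hji, zero_pow hdj]
      rw [h0, mul_zero, Polynomial.coeff_zero, coeff_monomial, if_neg]
      intro h
      apply hdj
      rw [h, Finsupp.single_eq_of_ne hji]

lemma spec_hsymm {ℓ : ℕ} (i : Fin ℓ) (n : ℕ) :
    spec i (hsymm (Fin ℓ) ℤ n) = Polynomial.X ^ n := by
  classical
  unfold hsymm
  rw [map_sum, Finset.sum_eq_single (Sym.replicate n i)]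
  · have : ((Sym.replicate n i).1 : Multiset (Fin ℓ)) = Multiset.replicate n i := rfl
    rw [this, Multiset.map_replicate, Multiset.prod_replicate, map_pow]
    unfold spec
    rw [aeval_X, if_pos rfl]
  · intro s _ hs
    have : ∃ j ∈ s.1, j ≠ i := by
      by_contra hcon
      push Not at hcon
      exact hs (Sym.eq_replicate.mpr hcon)
    obtain ⟨j, hj, hji⟩ := this
    rw [map_multiset_prod, Multiset.map_map]
    refine Multiset.prod_eq_zero ?_
    rw [Multiset.mem_map]
    refine ⟨j, hj, ?_⟩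
    unfold spec
    rw [Function.comp_apply, aeval_X, if_neg hji]
  · intro h; exact absurd (Finset.mem_univ _) h

lemma spec_hsymmPart {ℓ : ℕ} (i : Fin ℓ) {e : ℕ} (μ : Nat.Partition e) :
    spec i (hsymmPart (Fin ℓ) ℤ μ) = Polynomial.X ^ e := by
  unfold hsymmPart
  rw [map_multiset_prod, Multiset.map_map]
  have : (Multiset.map (⇑(spec i) ∘ hsymm (Fin ℓ) ℤ) μ.parts) =
      Multiset.map (fun n => (Polynomial.X : Polynomial ℤ) ^ n) μ.parts := by
    refine Multiset.map_congr rfl (fun n _ => ?_)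
    rw [Function.comp_apply, spec_hsymm]
  rw [this]
  have h2 : ∀ s : Multiset ℕ, (Multiset.map (fun n => (Polynomial.X : Polynomial ℤ) ^ n) s).prod =
      Polynomial.X ^ s.sum := by
    intro s
    induction s using Multiset.induction_on with
    | empty => simp
    | cons a s ih => rw [Multiset.map_cons, Multiset.prod_cons, ih, Multiset.sum_cons, pow_add]
  rw [h2, μ.parts_sum]

lemma coeff_single_hsymmPart {ℓ : ℕ} (i : Fin ℓ) {e : ℕ} (μ : Nat.Partition e) (m : ℕ) :
    coeff (Finsupp.single i m) (hsymmPart (Fin ℓ) ℤ μ) = if m = e then 1 else 0 := by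
  rw [← spec_coeff, spec_hsymmPart, Polynomial.coeff_X_pow]

lemma hsymm_hom {ℓ : ℕ} (n : ℕ) : (hsymm (Fin ℓ) ℤ n).IsHomogeneous n := by
  unfold hsymm
  refine IsHomogeneous.sum _ _ _ (fun s _ => ?_)
  have key : ∀ t : Multiset (Fin ℓ),
      ((t.map (X : Fin ℓ → MvPolynomial (Fin ℓ) ℤ)).prod).IsHomogeneous (Multiset.card t) := by
    intro t
    induction t using Multiset.induction_on with
    | empty => simpa using isHomogeneous_one _ _
    | cons a t ih =>
      rw [Multiset.map_cons, Multiset.prod_cons, Multiset.card_cons, add_comm]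
      exact (isHomogeneous_X _ a).mul ih
  have := key s.1
  rwa [s.2] at this

lemma hsymmPart_hom {ℓ : ℕ} {e : ℕ} (μ : Nat.Partition e) :
    (hsymmPart (Fin ℓ) ℤ μ).IsHomogeneous e := by
  unfold hsymmPart
  have key : ∀ t : Multiset ℕ,
      ((t.map (hsymm (Fin ℓ) ℤ)).prod).IsHomogeneous t.sum := by
    intro t
    induction t using Multiset.induction_on with
    | empty => simpa using isHomogeneous_one _ _
    | cons a t ih =>
      rw [Multiset.map_cons, Multiset.prod_cons, Multiset.sum_cons]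
      exact (hsymm_hom a).mul ih
  have := key μ.parts
  rwa [μ.parts_sum] at this

/-! ### The main argument -/

lemma not_hPositive {ℓ n : ℕ} (r s : Fin ℓ) (hrs : r ≠ s) (c c' : Fin n) (hcc : c ≠ c') :
    ¬ IsHPositive (wit n r s) := by
  rintro ⟨a, ha⟩
  have hne := wit_ne r s hrs c c' hcc
  have hdeg : (witDeg r s).degree = 3 := by
    unfold witDeg
    rw [map_add, map_add, Finsupp.degree_single, Finsupp.degree_single]
  have hhom : (wit n r s).IsHomogeneous 3 := by
    have := isHomogeneous_of_multi _ _ (wit_multi (n := n) r s)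
    rwa [hdeg] at this
  have htot : (wit n r s).totalDegree = 3 := hhom.totalDegree hne
  rw [htot] at ha
  -- coefficient extraction
  have hco : ∀ d : Fin ℓ →₀ ℕ,
      (Module.finrank ℂ ↥(polarizationModule (wit n r s) ⊓ multiHomog ℓ n d) : ℤ) =
      ∑ e ∈ Finset.range (3 + 1), ∑ μ : Nat.Partition e,
        (a e μ : ℤ) * coeff d (hsymmPart (Fin ℓ) ℤ μ) := by
    intro d
    have h1 : MvPowerSeries.coeff d (hilbertSeries (wit n r s)) =
      (Module.finrank ℂ ↥(polarizationModule (wit n r s) ⊓ multiHomog ℓ n d) : ℤ) := rfl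
    rw [← h1, ha, coeff_coe, coeff_sum]
    refine Finset.sum_congr rfl (fun e _ => ?_)
    rw [coeff_sum]
    refine Finset.sum_congr rfl (fun μ _ => ?_)
    rw [coeff_smul, nsmul_eq_mul]
  -- the coefficient of `q_r^3` vanishes
  have h3 := hco (Finsupp.single r 3)
  have hbot : polarizationModule (wit n r s) ⊓ multiHomog ℓ n (Finsupp.single r 3) = ⊥ := by
    rw [eq_bot_iff, ← big_inf (n := n) r]
    exact inf_le_inf_right _ (module_le_big r s)
  rw [hbot, finrank_bot] at h3
  have h3' : ∑ μ : Nat.Partition 3, (a 3 μ : ℤ) = 0 := by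
    rw [Finset.sum_eq_single 3] at h3
    · simp only [coeff_single_hsymmPart, if_true, mul_one] at h3
      simpa using h3.symm
    · intro e _ he
      refine Finset.sum_eq_zero (fun μ _ => ?_)
      rw [coeff_single_hsymmPart, if_neg (Ne.symm he), mul_zero]
    · intro h; exact absurd (by simp) h
  have ha3 : ∀ μ : Nat.Partition 3, (a 3 μ : ℤ) = 0 := by
    intro μ
    have := (Finset.sum_eq_zero_iff_of_nonneg (fun μ _ => Int.natCast_nonneg (a 3 μ))).mp h3'
    exact this μ (Finset.mem_univ _)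
  -- hence the whole cubic part vanishes
  have h4 := hco (witDeg r s)
  have h5 : (Module.finrank ℂ
      ↥(polarizationModule (wit n r s) ⊓ multiHomog ℓ n (witDeg r s)) : ℤ) = 0 := by
    rw [h4]
    refine Finset.sum_eq_zero (fun e _ => Finset.sum_eq_zero (fun μ _ => ?_))
    by_cases he : e = 3
    · subst he; rw [ha3 μ, zero_mul]
    · have : coeff (witDeg r s) (hsymmPart (Fin ℓ) ℤ μ) = 0 := by
        refine (hsymmPart_hom μ).coeff_eq_zero ?_
        rw [hdeg]; exact Ne.symm he
      rw [this, mul_zero]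
  have hfin : Module.Finite ℂ
      ↥(polarizationModule (wit n r s) ⊓ multiHomog ℓ n (witDeg r s)) := by
    have hle : polarizationModule (wit n r s) ⊓ multiHomog ℓ n (witDeg r s) ≤
        restrictTotalDegree (Fin ℓ × Fin n) ℂ 3 := by
      rintro g ⟨_, hg⟩
      rw [mem_restrictTotalDegree]
      have := isHomogeneous_of_multi _ g hg
      rw [hdeg] at this
      exact this.totalDegree_le
    exact Module.Finite.of_injective (Submodule.inclusion hle) (Submodule.inclusion_injective hle)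
  have h6 : Module.finrank ℂ
      ↥(polarizationModule (wit n r s) ⊓ multiHomog ℓ n (witDeg r s)) = 0 := by
    exact_mod_cast h5
  have h7 := Submodule.finrank_eq_zero.mp h6
  have h8 : wit n r s ∈ polarizationModule (wit n r s) ⊓ multiHomog ℓ n (witDeg r s) :=
    ⟨wit_mem_module r s, wit_multi r s⟩
  rw [h7] at h8
  exact hne h8

/-- For all `ℓ, n ≥ 2` there is a diagonally symmetric polynomial, homogeneous for the
multidegree, whose polarization module has a Hilbert series that is not `h`-positive. -/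
theorem result : ∀ ℓ n : ℕ, 2 ≤ ℓ → 2 ≤ n →
    ∃ (f : Poly ℓ n) (d : Fin ℓ →₀ ℕ), f ∈ multiHomog ℓ n d ∧
      (∀ σ : Equiv.Perm (Fin n), permAct σ f = f) ∧ ¬ IsHPositive f := by
  intro ℓ n hℓ hn
  refine ⟨wit n ⟨0, by omega⟩ ⟨1, by omega⟩, witDeg ⟨0, by omega⟩ ⟨1, by omega⟩,
    wit_multi _ _, wit_symm _ _, ?_⟩
  exact not_hPositive _ _ (by simp [Fin.ext_iff]) ⟨0, by omega⟩ ⟨1, by omega⟩
    (by simp [Fin.ext_iff])

end Pool.Agent.Results.MP_55095a_co.NotHPositive
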